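import Pool.Agent.U480.BI.Unb

/-!
# A Bergman inner function of `A²₁` that is not the derivative of a bounded function

There is a 1-generated invariant subspace `X = [H] ≠ {0}` of the weighted Bergman space `A²₁` whose
Bergman inner function is not `F'` for any bounded holomorphic `F` on the unit disc. This answers the
question of the problem in the negative.

The proof. Put `w n = ‖z ^ n‖² = 2 / ((n+1)(n+2))`. It is enough to find real numbers `a n`, `a 0 = 1`,
with `∑ a n ^ 2 * w n < ∞`, with `∑ a n * a (n+k) * w (n+k) = 0` for all `k ≥ 1`, and such that the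
power series `∑ a n r^(n+1) / (n+1)` is unbounded for `0 < r < 1`: the function `φ = ∑ a n z ^ n` then
satisfies `⟨p φ, φ⟩ = p(0) ‖φ‖²` for all polynomials `p`, so `⟨f, φ⟩ = f(0) ‖φ‖²` for all `f ∈ [φ]`,
and `φ / ‖φ‖` is the Bergman inner function of `[φ]`.

The sequence is the limit of finite sequences `a^(j)`. Let `a` be a finite sequence of length `N` whose
moments `μ k = ∑ a n * a (n+k) * w (n+k)`, `k ≥ 1`, have a small absolute sum `δ`. Put `s = 1/(j+1)²`,
`c 0 = 1` and `c l = - μ l / s` for `0 < l < N`, and add to `a` the block `(m/√2) √s c l` at the places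
`m + l`, where `m` is very large. Since `(m²/2) w (m+l) → 1`, the block has squared norm about `s` and
its own moments are about `s ∑ c l c (l+k) = -μ k + s ∑_{l ≥ 1} c l c (l+k)`. So the old moments cancel,
and the new ones have absolute sum at most `δ²/s` plus an error which tends to `0` with `1/m`. The
squared norms `∑ 1/(j+1)²` converge, whereas the values at `1` of the primitives increase by a multiple
of `√s = 1/(j+1)` in each step, and the primitives increase on `[0, 1]` in each step.
-/

set_option autoImplicit false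

open MeasureTheory Metric
open scoped ENNReal

namespace Pool.Agent.Results.MP_6e4f46_an.NotDerivativeOfBounded

/-- The measure `dA₁ = 2 (1 - |z|²) dA` on the open unit disc, `dA = π⁻¹ dx dy`
(extended by zero to `ℂ`). -/
noncomputable def dA1 : Measure ℂ :=
  (volume.restrict (ball (0 : ℂ) 1)).withDensity
    fun z => ENNReal.ofReal (2 * (1 - ‖z‖ ^ 2) / Real.pi)

/-- The norm of `A²₁`: the `L²(dA₁)` norm. -/
noncomputable def nrm (f : ℂ → ℂ) : ℝ≥0∞ := eLpNorm f 2 dA1

/-- `f` belongs to `A²₁`: it is holomorphic on the open unit disc (its values elsewhere are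
irrelevant) and has finite norm. -/
def MemA21 (f : ℂ → ℂ) : Prop := DifferentiableOn ℂ f (ball 0 1) ∧ nrm f < ⊤

/-- The invariant subspace `[H]` generated by `H`: the closure in `A²₁` of the polynomial
multiples of `H`. -/
def Gen (H : ℂ → ℂ) : Set (ℂ → ℂ) :=
  {f | MemA21 f ∧ ∀ ε : ℝ≥0∞, 0 < ε →
    ∃ p : Polynomial ℂ, nrm (fun z => f z - p.eval z * H z) < ε}

/-- `k` is the smallest order of vanishing at `0` among the functions in `X`. -/
def IsMinOrder (X : Set (ℂ → ℂ)) (k : ℕ) : Prop :=
  (∀ f ∈ X, ∀ j < k, iteratedDeriv j f 0 = 0) ∧ ∃ f ∈ X, iteratedDeriv k f 0 ≠ 0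

/-- `φ` is a Bergman inner function of `X`: a solution of the extremal problem
`sup {Re f^(k)(0) : f ∈ X, ‖f‖ ≤ 1}`, where `k` is the smallest order of vanishing at `0`
among the functions in `X`. -/
def IsBergmanInner (X : Set (ℂ → ℂ)) (φ : ℂ → ℂ) : Prop :=
  ∃ k, IsMinOrder X k ∧ φ ∈ X ∧ nrm φ ≤ 1 ∧
    ∀ f ∈ X, nrm f ≤ 1 → (iteratedDeriv k f 0).re ≤ (iteratedDeriv k φ 0).re

/-- `g` is the derivative (on the disc) of a bounded holomorphic function on the disc. -/
def IsDerivOfBounded (g : ℂ → ℂ) : Prop :=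
  ∃ F : ℂ → ℂ, DifferentiableOn ℂ F (ball 0 1) ∧ (∃ C : ℝ, ∀ z ∈ ball (0 : ℂ) 1, ‖F z‖ ≤ C) ∧
    ∀ z ∈ ball (0 : ℂ) 1, deriv F z = g z

/-- **A 1-generated invariant subspace `[H] ≠ {0}` of `A²₁` whose Bergman inner function, which is
unique as a function on the disc, is not the derivative of a bounded holomorphic function.** -/
theorem result : ∃ H : ℂ → ℂ, MemA21 H ∧ (∃ z ∈ ball (0 : ℂ) 1, H z ≠ 0) ∧
    ∃ φ : ℂ → ℂ, IsBergmanInner (Gen H) φ ∧
      (∀ ψ : ℂ → ℂ, IsBergmanInner (Gen H) ψ → ∀ z ∈ ball (0 : ℂ) 1, ψ z = φ z) ∧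
      ¬ IsDerivOfBounded φ :=
  Pool.Agent.U480.BI.main

end Pool.Agent.Results.MP_6e4f46_an.NotDerivativeOfBounded
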